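import Pool.Agent.H95.HypF3

set_option autoImplicit false

open UpperHalfPlane Pool.Agent.H95.HypFDefs

theorem Pool.Agent.Results.MP_e721cf_gt.Yes.result :
    ∃ X : Set ℍ, Bornology.IsBounded X ∧ (interior X).Nonempty ∧
      ∃ φ ψ : Equiv.Perm X, PiecewiseIso φ ∧ PiecewiseIso ψ ∧
        Function.Injective (FreeGroup.lift ![φ, ψ]) ∧
        ∀ g ∈ Subgroup.closure {φ, ψ}, ∀ x, g x = x → g = 1 :=
  Pool.Agent.H95.HypF3.main
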